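import Pool.Agent.W689.Mk.Star

/-!
# Helly's theorem and the affine holonomy of closed affine manifolds with parallel volume
-/

set_option autoImplicit false

open Set Filter Topology Metric MeasureTheory
open scoped ENNReal

namespace Pool.Agent.T63.MK

open Pool.Agent.W689.Mk

section helly
variable {E : Type} [NormedAddCommGroup E] [NormedSpace ℝ E] [FiniteDimensional ℝ E]

/-- a family of closed convex sets without common point has `n + 1` members without common point in a
given compact set -/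
theorem helly_family {ι : Type} (C : ι → Set E) (hc : ∀ i, Convex ℝ (C i))
    (hcl : ∀ i, IsClosed (C i)) (hempty : ⋂ i, C i = ∅) {Q : Set E} (hQ : IsCompact Q) :
    ∃ s : Fin (Module.finrank ℝ E + 1) → ι, Q ∩ ⋂ j, C (s j) = ∅ := by
  classical
  obtain ⟨R, hR⟩ := hQ.isBounded.subset_closedBall (0 : E)
  have hcon : ¬ ∀ I : Finset ι, I.card ≤ Module.finrank ℝ E + 1 →
      (⋂ i ∈ I, closedBall (0 : E) R ∩ C i).Nonempty := by
    intro h
    have h1 := Convex.helly_theorem_compact' (𝕜 := ℝ) (F := fun i => closedBall (0 : E) R ∩ C i)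
      (fun i => (convex_closedBall 0 R).inter (hc i))
      (fun i => (isCompact_closedBall 0 R).inter_right (hcl i)) h
    obtain ⟨p, hp⟩ := h1
    have h2 : p ∈ ⋂ i, C i := mem_iInter.2 fun i => (mem_iInter.1 hp i).2
    rw [hempty] at h2
    exact h2
  push Not at hcon
  obtain ⟨I, hI, hI2⟩ := hcon
  have hne : I.Nonempty := by
    by_contra h
    rw [Finset.not_nonempty_iff_eq_empty] at h
    rw [h] at hI2
    simp at hI2
  obtain ⟨i0, hi0⟩ := hne
  let s : Fin (Module.finrank ℝ E + 1) → ι := fun j =>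
    if h : j.1 < I.card then (I.equivFin.symm ⟨j.1, h⟩).1 else i0
  refine ⟨s, ?_⟩
  rw [eq_empty_iff_forall_notMem]
  rintro p ⟨hp, hp2⟩
  have h3 : p ∈ ⋂ i ∈ I, closedBall (0 : E) R ∩ C i := by
    refine mem_iInter₂.2 fun i hi => ⟨hR hp, ?_⟩
    have h4 := (I.equivFin ⟨i, hi⟩).2
    have h5 := mem_iInter.1 hp2 ⟨(I.equivFin ⟨i, hi⟩).1, lt_of_lt_of_le h4 hI⟩
    have h6 : s ⟨(I.equivFin ⟨i, hi⟩).1, lt_of_lt_of_le h4 hI⟩ = i := by
      simp only [s]
      rw [dif_pos h4]
      simp
    rwa [h6] at h5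
  rw [hI2] at h3
  exact h3

theorem closure_ne {B : Set E} (hB : Convex ℝ B) (hu : B ≠ univ) : closure B ≠ univ := by
  intro hcl
  apply hu
  have hint : (interior B).Nonempty := by
    by_contra h
    have h1 : affineSpan ℝ B ≠ ⊤ := fun h2 => h (hB.interior_nonempty_iff_affineSpan_eq_top.2 h2)
    apply h1
    have h2 : closure B ⊆ (affineSpan ℝ B : Set E) :=
      closure_minimal (subset_affineSpan ℝ B) (AffineSubspace.closed_of_finiteDimensional _)
    rw [hcl] at h2
    exact (AffineSubspace.coe_eq_univ_iff _).1 (univ_subset_iff.1 h2)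
  have h2 := hB.interior_closure_eq_interior_of_nonempty_interior hint
  rw [hcl, interior_univ] at h2
  exact univ_subset_iff.1 (h2 ▸ interior_subset)

end helly

section equi
variable {X Γ E : Type} [TopologicalSpace X] [T2Space X] [Group Γ] [MulAction Γ X]
  [NormedAddCommGroup E] [NormedSpace ℝ E] [FiniteDimensional ℝ E]
  {dev : X → E} {hol : Γ →* (E ≃ᵃ[ℝ] E)}

omit [FiniteDimensional ℝ E] in
theorem image_eq (γ : Γ) (B : Set E) : hol γ '' B = hol γ⁻¹ ⁻¹' B := by
  ext p
  constructor
  · rintro ⟨q, hq, rfl⟩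
    show hol γ⁻¹ (hol γ q) ∈ B
    rwa [hol_inv_apply]
  · intro hp
    exact ⟨hol γ⁻¹ p, hp, hol_apply_inv γ p⟩

theorem image_closed (γ : Γ) {B : Set E} (hB : IsClosed B) : IsClosed (hol γ '' B) := by
  rw [image_eq]
  exact hB.preimage (hol_cont _)

omit [FiniteDimensional ℝ E] in
theorem image_convex (γ : Γ) {B : Set E} (hB : Convex ℝ B) : Convex ℝ (hol γ '' B) := by
  rw [image_eq]
  exact hB.affine_preimage (hol γ⁻¹).toAffineMap

/-- `n + 1` translates of a proper convex set have no common point in a given compact set -/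
theorem translates (D : AffData X Γ E dev hol) [SecondCountableTopology X] [Nonempty X]
    {B : Set E} (hB : Convex ℝ B) (hBu : B ≠ univ) {Q : Set E} (hQ : IsCompact Q) :
    ∃ s : Fin (Module.finrank ℝ E + 1) → Γ, Q ∩ ⋂ j, hol (s j) '' closure B = ∅ := by
  refine helly_family (fun γ : Γ => hol γ '' closure B) (fun γ => image_convex γ hB.closure)
    (fun γ => image_closed γ isClosed_closure) ?_ hQ
  by_contra hne
  rw [← Ne, ← nonempty_iff_ne_empty] at hne
  have h1 := convex_univ' D (convex_iInter fun γ : Γ => image_convex γ hB.closure) hne (by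
    intro δ q hq
    refine mem_iInter.2 fun γ => ?_
    have h2 := mem_iInter.1 hq (δ⁻¹ * γ)
    rw [image_eq] at h2 ⊢
    have h3 : hol (δ⁻¹ * γ)⁻¹ q = hol γ⁻¹ (hol δ q) := by
      rw [mul_inv_rev, inv_inv, map_mul]
      rfl
    rwa [mem_preimage, h3] at h2)
  apply closure_ne hB hBu
  rw [eq_univ_iff_forall]
  intro p
  have h2 : p ∈ ⋂ γ : Γ, hol γ '' closure B := by rw [h1]; trivial
  have h3 := mem_iInter.1 h2 1
  rw [image_eq] at h3
  simpa using h3

variable [MeasurableSpace E] [BorelSpace E]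

theorem escape (D : AffData X Γ E dev hol) [SecondCountableTopology X] [Nonempty X]
    {B : Set E} (hB : Convex ℝ B) (hBu : B ≠ univ) (μ : Measure E) [IsFiniteMeasure μ]
    {ε : ℝ≥0∞} (hε : 0 < ε) :
    ∃ γ : Γ, (Module.finrank ℝ E + 1 : ℕ) * μ (hol γ '' B) ≤ (Module.finrank ℝ E : ℕ) * μ univ + ε := by
  -- a large ball
  have hlim : Tendsto (fun k : ℕ => μ (closedBall (0 : E) k)) atTop (𝓝 (μ univ)) := by
    have h1 := tendsto_measure_iUnion_atTop (μ := μ) (s := fun k : ℕ => closedBall (0 : E) k)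
      (fun a b hab => closedBall_subset_closedBall (by exact_mod_cast hab))
    rwa [iUnion_closedBall_nat] at h1
  obtain ⟨k, hk⟩ : ∃ k : ℕ, μ univ ≤ μ (closedBall (0 : E) k) + ε := by
    by_contra hcon
    push Not at hcon
    have h1 : μ univ + ε ≤ μ univ :=
      le_of_tendsto (hlim.add_const ε) (Eventually.of_forall fun k => (hcon k).le)
    have h2 : μ univ < μ univ + ε := ENNReal.lt_add_right (measure_ne_top μ _) hε.ne'
    exact absurd h1 (not_le.2 h2)
  obtain ⟨s, hs⟩ := translates D hB hBu (isCompact_closedBall (0 : E) (k : ℝ))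
  have hcov : closedBall (0 : E) (k : ℝ) ⊆ ⋃ j, (hol (s j) '' closure B)ᶜ := by
    intro p hp
    by_contra hcon
    rw [mem_iUnion] at hcon
    push Not at hcon
    have : p ∈ closedBall (0 : E) (k : ℝ) ∩ ⋂ j, hol (s j) '' closure B :=
      ⟨hp, mem_iInter.2 fun j => not_not.1 (hcon j)⟩
    rw [hs] at this
    exact this
  have h1 : μ (closedBall (0 : E) (k : ℝ)) ≤ ∑ j, μ (hol (s j) '' closure B)ᶜ :=
    (measure_mono hcov).trans (measure_iUnion_fintype_le _ _)
  obtain ⟨j, -, hj⟩ := Finset.exists_max_image Finset.univ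
    (fun j => μ (hol (s j) '' closure B)ᶜ) ⟨0, Finset.mem_univ _⟩
  have h2 : μ (closedBall (0 : E) (k : ℝ)) ≤
      (Module.finrank ℝ E + 1 : ℕ) * μ (hol (s j) '' closure B)ᶜ := by
    refine h1.trans ((Finset.sum_le_card_nsmul _ _ _ hj).trans ?_)
    rw [Finset.card_univ, Fintype.card_fin, nsmul_eq_mul]
  have h3 : μ (hol (s j) '' closure B) + μ (hol (s j) '' closure B)ᶜ = μ univ :=
    measure_add_measure_compl (image_closed _ isClosed_closure).measurableSet
  refine ⟨s j, ?_⟩
  have h4 : μ (hol (s j) '' B) ≤ μ (hol (s j) '' closure B) :=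
    measure_mono (image_mono subset_closure)
  have h5 : (Module.finrank ℝ E + 1 : ℕ) * μ (hol (s j) '' B) + μ univ ≤
      (Module.finrank ℝ E : ℕ) * μ univ + ε + μ univ := by
    calc (Module.finrank ℝ E + 1 : ℕ) * μ (hol (s j) '' B) + μ univ
        ≤ (Module.finrank ℝ E + 1 : ℕ) * μ (hol (s j) '' closure B) +
          (μ (closedBall (0 : E) (k : ℝ)) + ε) := by gcongr
      _ ≤ (Module.finrank ℝ E + 1 : ℕ) * μ (hol (s j) '' closure B) +
          ((Module.finrank ℝ E + 1 : ℕ) * μ (hol (s j) '' closure B)ᶜ + ε) := by gcongr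
      _ = (Module.finrank ℝ E + 1 : ℕ) * μ univ + ε := by
          rw [← add_assoc, ← mul_add, h3]
      _ = (Module.finrank ℝ E : ℕ) * μ univ + ε + μ univ := by
          push_cast
          ring
  exact (ENNReal.add_le_add_iff_right (measure_ne_top μ _)).1 h5

/-- every half-space has infinite measure for every nonzero invariant measure -/
theorem half_space (D : AffData X Γ E dev hol) [SecondCountableTopology X] [Nonempty X]
    (μ : Measure E) (hμ : μ ≠ 0) (hinv : ∀ γ : Γ, μ.map (hol γ) = μ)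
    (φ : E →L[ℝ] ℝ) (hφ : φ ≠ 0) (a : ℝ) : μ {p | a < φ p} = ∞ := by
  by_contra hfin
  apply hμ
  have hmeas : ∀ (ψ : E →L[ℝ] ℝ) (b : ℝ), MeasurableSet {p | b < ψ p} := fun ψ b =>
    (isOpen_lt continuous_const ψ.continuous).measurableSet
  -- the half-spaces of small measure
  have key : ∀ t : ℝ≥0∞, 0 < t → ∀ k : ℕ,
      μ (closedBall (0 : E) k) ≤ (Module.finrank ℝ E + 1 : ℕ) * t := by
    intro t ht k
    let ι : Type := {x : (E →L[ℝ] ℝ) × ℝ // x.1 ≠ 0 ∧ μ {p | x.2 < x.1 p} ≤ t}
    let C : ι → Set E := fun x => {p | x.1.1 p ≤ x.1.2}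
    have hC : ∀ i, Convex ℝ (C i) := fun i => convex_halfSpace_le i.1.1.isLinear _
    have hCc : ∀ i, IsClosed (C i) := fun i => isClosed_le i.1.1.continuous continuous_const
    -- one such half-space
    obtain ⟨N, hN⟩ : ∃ N : ℕ, μ {p | a + N < φ p} ≤ t := by
      have hanti : Antitone fun N : ℕ => {p : E | a + (N : ℝ) < φ p} := by
        intro N M hNM p hp
        have h1 : (N : ℝ) ≤ M := by exact_mod_cast hNM
        have h2 : a + (M : ℝ) < φ p := hp
        show a + (N : ℝ) < φ p
        linarith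
      have h1 := tendsto_measure_iInter_atTop (μ := μ)
        (fun N : ℕ => (hmeas φ (a + N)).nullMeasurableSet) hanti
        ⟨0, by simpa using hfin⟩
      have h2 : ⋂ N : ℕ, {p : E | a + (N : ℝ) < φ p} = ∅ := by
        rw [eq_empty_iff_forall_notMem]
        intro p hp
        obtain ⟨N, hN⟩ := exists_nat_gt (φ p - a)
        have h3 := mem_iInter.1 hp N
        have h4 : a + (N : ℝ) < φ p := h3
        linarith
      rw [h2, measure_empty] at h1
      obtain ⟨N, hN⟩ := (h1.eventually (Iic_mem_nhds ht)).exists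
      exact ⟨N, hN⟩
    let i0 : ι := ⟨(φ, a + N), hφ, hN⟩
    have hempty : ⋂ i, C i = ∅ := by
      by_contra hne
      rw [← Ne, ← nonempty_iff_ne_empty] at hne
      have h1 := convex_univ' D (convex_iInter hC) hne (by
        intro γ q hq
        refine mem_iInter.2 fun i => ?_
        obtain ⟨⟨ψ, b⟩, h2, h3⟩ := i
        let A : E →L[ℝ] E := LinearMap.toContinuousLinearMap ((hol γ).linear : E →ₗ[ℝ] E)
        have hA : ∀ p, ψ (hol γ p) = ψ (A p) + ψ (hol γ 0) := by
          intro p
          have h4 := hol_add (hol := hol) γ 0 p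
          rw [zero_add] at h4
          rw [h4, map_add, add_comm]
          rfl
        have h5 : {p | b - ψ (hol γ 0) < (ψ.comp A) p} = hol γ ⁻¹' {p | b < ψ p} := by
          ext p
          show b - ψ (hol γ 0) < ψ (A p) ↔ b < ψ (hol γ p)
          rw [hA p]
          constructor <;> intro h <;> linarith
        have h6 : μ {p | b - ψ (hol γ 0) < (ψ.comp A) p} ≤ t := by
          rw [h5, ← Measure.map_apply (hol_cont γ).measurable (hmeas ψ b), hinv γ]
          exact h3
        have h7 : ψ.comp A ≠ 0 := by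
          intro h8
          apply h2
          ext v
          have h9 : A (lin hol γ⁻¹ v) = v := by
            have := lin_inv_apply (hol := hol) γ⁻¹ v
            rw [inv_inv] at this
            exact this
          have h10 : (ψ.comp A) (lin hol γ⁻¹ v) = 0 := by rw [h8]; rfl
          have h11 : ψ (A (lin hol γ⁻¹ v)) = 0 := h10
          rw [h9] at h11
          exact h11
        have h8 := mem_iInter.1 hq ⟨(ψ.comp A, b - ψ (hol γ 0)), h7, h6⟩
        have h9 : ψ (A q) ≤ b - ψ (hol γ 0) := h8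
        show ψ (hol γ q) ≤ b
        rw [hA q]
        linarith)
      obtain ⟨v, hv⟩ : ∃ v, φ v ≠ 0 := by
        by_contra hcon
        push Not at hcon
        exact hφ (by ext v; exact hcon v)
      have h2 : ((a + N + 1) / φ v) • v ∈ ⋂ i, C i := by rw [h1]; trivial
      have h3 : φ (((a + N + 1) / φ v) • v) ≤ a + N := mem_iInter.1 h2 i0
      rw [map_smul, smul_eq_mul, div_mul_cancel₀ _ hv] at h3
      linarith
    obtain ⟨s, hs⟩ := helly_family C hC hCc hempty (isCompact_closedBall (0 : E) (k : ℝ))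
    have hcov : closedBall (0 : E) (k : ℝ) ⊆ ⋃ j, {p | (s j).1.2 < (s j).1.1 p} := by
      intro p hp
      by_contra hcon
      rw [mem_iUnion] at hcon
      push Not at hcon
      have : p ∈ closedBall (0 : E) (k : ℝ) ∩ ⋂ j, C (s j) :=
        ⟨hp, mem_iInter.2 fun j => by
          have h1 : ¬ (s j).1.2 < (s j).1.1 p := hcon j
          show (s j).1.1 p ≤ (s j).1.2
          exact not_lt.1 h1⟩
      rw [hs] at this
      exact this
    calc μ (closedBall (0 : E) (k : ℝ)) ≤ ∑ j, μ {p | (s j).1.2 < (s j).1.1 p} :=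
          (measure_mono hcov).trans (measure_iUnion_fintype_le _ _)
      _ ≤ ∑ _j : Fin (Module.finrank ℝ E + 1), t := Finset.sum_le_sum fun j _ => (s j).2.2
      _ = (Module.finrank ℝ E + 1 : ℕ) * t := by
          rw [Finset.sum_const, Finset.card_univ, Fintype.card_fin, nsmul_eq_mul]
  have hball : ∀ k : ℕ, μ (closedBall (0 : E) k) = 0 := by
    intro k
    by_contra hne
    have h1 : 0 < μ (closedBall (0 : E) k) := pos_iff_ne_zero.2 hne
    have hn : ((Module.finrank ℝ E + 1 : ℕ) : ℝ≥0∞) ≠ 0 := by positivity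
    have hn' : ((Module.finrank ℝ E + 1 : ℕ) : ℝ≥0∞) ≠ ∞ := ENNReal.natCast_ne_top _
    obtain ⟨t, ht, htlt⟩ : ∃ t : ℝ≥0∞, 0 < t ∧
        (Module.finrank ℝ E + 1 : ℕ) * t < μ (closedBall (0 : E) k) := by
      obtain ⟨r, hr, hr2⟩ := exists_between (ENNReal.div_pos h1.ne' hn' :
        0 < μ (closedBall (0 : E) k) / (Module.finrank ℝ E + 1 : ℕ))
      refine ⟨r, hr, ?_⟩
      rw [mul_comm]
      exact (ENNReal.lt_div_iff_mul_lt (Or.inl hn) (Or.inl hn')).1 hr2
    exact absurd (key t ht k) (not_le.2 htlt)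
  have huniv : μ univ = 0 := by
    rw [← iUnion_closedBall_nat (0 : E)]
    exact measure_iUnion_null hball
  exact Measure.measure_univ_eq_zero.1 huniv

end equi

end Pool.Agent.T63.MK
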